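import Pool.Agent.H58.BL.Stm2

set_option autoImplicit false

open Finset Module

namespace Pool.Agent.H588.BL

open Pool.Agent.H58 Pool.Agent.H58.BL

section abs

variable {W : Type*} [NormedAddCommGroup W] [InnerProductSpace ℝ W]

theorem exp_inner {d : ℕ} (b : OrthonormalBasis (Fin d) ℝ W) (A : W →ₗ[ℝ] W) (x y : W) :
    ∑ i, inner ℝ (A (b i)) (inner ℝ (b i) x • y) = inner ℝ (A x) y := by
  have h : A x = ∑ i, inner ℝ (b i) x • A (b i) := by
    conv_lhs => rw [← b.sum_repr' x]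
    rw [map_sum]
    exact Finset.sum_congr rfl fun i _ => by rw [map_smul]
  rw [h, sum_inner]
  refine Finset.sum_congr rfl fun i _ => ?_
  rw [real_inner_smul_left, real_inner_smul_right]

theorem bessel {ι : Type*} (S : Finset ι) (d : ℕ) (hd : 0 < d)
    (b : OrthonormalBasis (Fin d) ℝ W) (I : W →ₗ[ℝ] W) (hI2 : ∀ v, I (I v) = -v)
    (hIs : ∀ v w, inner ℝ (I v) w = - inner ℝ v (I w)) (T : ι → W →ₗ[ℝ] W)
    (hT : ∀ s ∈ S, ∀ v w, inner ℝ (T s v) (T s w) = inner ℝ v w)
    (hTI : ∀ s ∈ S, ∀ v, T s (I v) = I (T s v))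
    (h0 : ∀ s ∈ S, ∀ s' ∈ S, s ≠ s' → ∑ i, inner ℝ (T s (b i)) (T s' (b i)) = 0)
    (h1 : ∀ s ∈ S, ∀ s' ∈ S, s ≠ s' → ∑ i, inner ℝ (T s (b i)) (I (T s' (b i))) = 0) :
    4 * S.card ≤ d ^ 2 := by
  classical
  have hII : ∀ v w, inner ℝ (I v) (I w) = inner ℝ v w := by
    intro v w
    rw [hIs, hI2, inner_neg_right, neg_neg]
  have hI0 : ∀ v, inner ℝ v (I v) = 0 := by
    intro v
    have := hIs v v
    rw [real_inner_comm] at this
    linarith
  have hdR : (0 : ℝ) < d := by exact_mod_cast hd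
  have hsq : (√(d : ℝ))⁻¹ * (√(d : ℝ))⁻¹ = (d : ℝ)⁻¹ := by
    rw [← mul_inv, Real.mul_self_sqrt hdR.le]
  let f : S × Bool → W →ₗ[ℝ] W := fun k => if k.2 then I ∘ₗ T k.1.1 else T k.1.1
  let v : S × Bool → PiLp 2 (fun _ : Fin d => W) :=
    fun k => (√(d : ℝ))⁻¹ • WithLp.toLp 2 (fun i => f k (b i))
  have hv : Orthonormal ℝ v := by
    rw [orthonormal_iff_ite]
    rintro ⟨⟨s, hs⟩, e⟩ ⟨⟨s', hs'⟩, e'⟩
    have hin : inner ℝ (v (⟨s, hs⟩, e)) (v (⟨s', hs'⟩, e')) =
        (d : ℝ)⁻¹ * ∑ i, inner ℝ (f (⟨s, hs⟩, e) (b i)) (f (⟨s', hs'⟩, e') (b i)) := by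
      simp only [v]
      rw [real_inner_smul_left, real_inner_smul_right, ← mul_assoc, hsq, PiLp.inner_apply]
    rw [hin]
    have hsum1 : ∀ s ∈ S, ∑ i, inner ℝ (T s (b i)) (T s (b i)) = (d : ℝ) := by
      intro s hs
      have : ∀ i, inner ℝ (T s (b i)) (T s (b i)) = (1 : ℝ) := by
        intro i
        rw [hT s hs, real_inner_self_eq_norm_sq, b.norm_eq_one, one_pow]
      rw [Finset.sum_congr rfl fun i _ => this i]
      simp
    cases e <;> cases e'
    · simp only [f]
      by_cases hss : s = s'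
      · subst hss
        simp only [Bool.false_eq_true, if_false, if_true, hsum1 s hs]
        rw [inv_mul_cancel₀ hdR.ne']
      · have hne : ¬ ((⟨s, hs⟩, false) : S × Bool) = (⟨s', hs'⟩, false) := by
          intro h; simp at h; exact hss h
        simp only [Bool.false_eq_true, if_false, h0 s hs s' hs' hss, mul_zero, if_neg hne]
    · have hne : ¬ ((⟨s, hs⟩, false) : S × Bool) = (⟨s', hs'⟩, true) := by
        intro h; simp at h
      rw [if_neg hne]
      simp only [f, Bool.false_eq_true, if_false, if_true, LinearMap.comp_apply]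
      by_cases hss : s = s'
      · subst hss
        simp [hI0]
      · rw [h1 s hs s' hs' hss, mul_zero]
    · have hne : ¬ ((⟨s, hs⟩, true) : S × Bool) = (⟨s', hs'⟩, false) := by
        intro h; simp at h
      rw [if_neg hne]
      simp only [f, Bool.false_eq_true, if_false, if_true, LinearMap.comp_apply]
      by_cases hss : s = s'
      · subst hss
        simp only [real_inner_comm, hI0]
        simp
      · have := h1 s' hs' s hs (Ne.symm hss)
        simp only [real_inner_comm] at this ⊢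
        rw [this, mul_zero]
    · simp only [f, if_true, LinearMap.comp_apply, hII]
      by_cases hss : s = s'
      · subst hss
        simp only [if_true, hsum1 s hs]
        rw [inv_mul_cancel₀ hdR.ne']
      · have hne : ¬ ((⟨s, hs⟩, true) : S × Bool) = (⟨s', hs'⟩, true) := by
          intro h; simp at h; exact hss h
        simp only [h0 s hs s' hs' hss, mul_zero, if_neg hne]
  -- the test vectors
  obtain ⟨x, hx⟩ : ∃ x : W, ‖x‖ = 1 := ⟨b ⟨0, hd⟩, b.norm_eq_one _⟩
  have hxx : inner ℝ x x = (1 : ℝ) := by rw [real_inner_self_eq_norm_sq, hx, one_pow]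
  let M : Fin d → PiLp 2 (fun _ : Fin d => W) := fun j =>
    WithLp.toLp 2 (fun i => inner ℝ (b i) x • ((1 / 2 : ℝ) • b j) +
      inner ℝ (b i) (I x) • ((1 / 2 : ℝ) • I (b j)))
  have hM : ∀ j, ‖M j‖ ^ 2 = 1 / 2 := by
    intro j
    rw [← real_inner_self_eq_norm_sq, PiLp.inner_apply]
    have e1 : ∀ i, inner ℝ ((M j) i) ((M j) i) =
        (1 / 4 : ℝ) * (inner ℝ (b i) x * inner ℝ (b i) x) +
          (1 / 4 : ℝ) * (inner ℝ (b i) (I x) * inner ℝ (b i) (I x)) := by
      intro i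
      have hbb : inner ℝ (b j) (b j) = (1 : ℝ) := by
        rw [real_inner_self_eq_norm_sq, b.norm_eq_one, one_pow]
      have hb2 : inner ℝ (I (b j)) (b j) = (0 : ℝ) := by rw [real_inner_comm]; exact hI0 _
      simp only [M]
      rw [inner_add_left, inner_add_right, inner_add_right]
      simp only [real_inner_smul_left, real_inner_smul_right, hII, hI0, hbb, hb2]
      ring
    rw [Finset.sum_congr rfl fun i _ => e1 i, Finset.sum_add_distrib, ← Finset.mul_sum,
      ← Finset.mul_sum]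
    have e2 : ∀ y : W, ∑ i, inner ℝ (b i) y * inner ℝ (b i) y = inner ℝ y y := by
      intro y
      rw [real_inner_self_eq_norm_sq, ← b.sum_sq_norm_inner_right y]
      refine Finset.sum_congr rfl fun i _ => ?_
      rw [Real.norm_eq_abs, sq_abs, sq]
    rw [e2, e2, hII, hxx]
    norm_num
  have hin : ∀ (s : S) (e : Bool) (j : Fin d), inner ℝ (v (s, e)) (M j) =
      (√(d : ℝ))⁻¹ * inner ℝ (f (s, e) x) (b j) := by
    intro s e j
    have hfI : ∀ y, f (s, e) (I y) = I (f (s, e) y) := by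
      intro y
      cases e
      · simp only [f, Bool.false_eq_true, if_false]
        exact hTI s.1 s.2 y
      · simp only [f, if_true, LinearMap.comp_apply]
        rw [hTI s.1 s.2 y]
    simp only [v]
    rw [real_inner_smul_left, PiLp.inner_apply]
    congr 1
    have e1 : ∀ i, inner ℝ ((WithLp.toLp 2 (fun i => f (s, e) (b i)) :
        PiLp 2 (fun _ : Fin d => W)) i) ((M j) i) =
        inner ℝ (f (s, e) (b i)) (inner ℝ (b i) x • ((1 / 2 : ℝ) • b j)) +
        inner ℝ (f (s, e) (b i)) (inner ℝ (b i) (I x) • ((1 / 2 : ℝ) • I (b j))) := by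
      intro i
      simp only [M]
      rw [inner_add_right]
    rw [Finset.sum_congr rfl fun i _ => e1 i, Finset.sum_add_distrib, exp_inner, exp_inner, hfI,
      real_inner_smul_right, real_inner_smul_right, hII]
    ring
  have hB : ∀ j, ∑ k : S × Bool, ‖inner ℝ (v k) (M j)‖ ^ 2 ≤ 1 / 2 := by
    intro j
    rw [← hM j]
    exact hv.sum_inner_products_le (M j)
  have hsumj : ∑ j, ∑ k : S × Bool, ‖inner ℝ (v k) (M j)‖ ^ 2 ≤ (d : ℝ) * (1 / 2) := by
    refine (Finset.sum_le_sum fun j _ => hB j).trans ?_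
    simp
  have hL : ∑ j, ∑ k : S × Bool, ‖inner ℝ (v k) (M j)‖ ^ 2 = (d : ℝ)⁻¹ * (2 * S.card) := by
    rw [Finset.sum_comm]
    have e1 : ∀ k : S × Bool, ∑ j, ‖inner ℝ (v k) (M j)‖ ^ 2 = (d : ℝ)⁻¹ := by
      rintro ⟨s, e⟩
      have e2 : ∀ j, ‖inner ℝ (v (s, e)) (M j)‖ ^ 2 =
          (d : ℝ)⁻¹ * ‖inner ℝ (f (s, e) x) (b j)‖ ^ 2 := by
        intro j
        rw [hin s e j, norm_mul, mul_pow, Real.norm_eq_abs, sq_abs, sq, hsq]
      rw [Finset.sum_congr rfl fun j _ => e2 j, ← Finset.mul_sum, b.sum_sq_norm_inner_left]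
      have e3 : ‖f (s, e) x‖ ^ 2 = 1 := by
        rw [← real_inner_self_eq_norm_sq]
        cases e
        · simp only [f, Bool.false_eq_true, if_false]
          rw [hT s.1 s.2, hxx]
        · simp only [f, if_true, LinearMap.comp_apply]
          rw [hII, hT s.1 s.2, hxx]
      rw [e3, mul_one]
    rw [Finset.sum_congr rfl fun k _ => e1 k]
    simp only [Finset.sum_const, Finset.card_univ, Fintype.card_prod, Fintype.card_coe,
      Fintype.card_bool, nsmul_eq_mul]
    push_cast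
    ring
  rw [hL] at hsumj
  have h3 : 2 * (S.card : ℝ) ≤ (d : ℝ) * (d : ℝ) * (1 / 2) := by
    have := mul_le_mul_of_nonneg_left hsumj hdR.le
    rw [← mul_assoc, mul_inv_cancel₀ hdR.ne', one_mul, ← mul_assoc] at this
    exact this
  have h4 : (4 : ℝ) * S.card ≤ (d : ℝ) ^ 2 := by
    rw [sq]
    linarith
  exact_mod_cast h4

end abs

section grp

variable {n : ℕ}

theorem t_besc : Pool.Agent.H58.BL.S_BESC := by
  classical
  intro n G V J hV hG2 hC S hSG hS
  obtain ⟨hJV, hJ2, hJs, hJG, hJN⟩ := hC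
  obtain ⟨P, hP⟩ := V.subtype.exists_leftInverse_of_injective V.ker_subtype
  have hPv : ∀ w : V, P (w : EuclideanSpace ℝ (Fin n)) = w := fun w => LinearMap.congr_fun hP w
  have hPm : ∀ w, w ∈ V → ((P w : V) : EuclideanSpace ℝ (Fin n)) = w := fun w hw => by
    rw [hPv ⟨w, hw⟩]
  let R : (EuclideanSpace ℝ (Fin n) ≃ₗᵢ[ℝ] EuclideanSpace ℝ (Fin n)) → V →ₗ[ℝ] V :=
    fun g => P ∘ₗ g.toLinearEquiv.toLinearMap ∘ₗ V.subtype
  let I : V →ₗ[ℝ] V := P ∘ₗ J ∘ₗ V.subtype
  have hR : ∀ g ∈ G, ∀ v : V, ((R g v : V) : EuclideanSpace ℝ (Fin n)) = g v := fun g hg v =>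
    hPm _ (hV.1 g hg v v.2)
  have hI : ∀ v : V, ((I v : V) : EuclideanSpace ℝ (Fin n)) = J v := fun v => hPm _ (hJV v v.2)
  have hI2 : ∀ v, I (I v) = -v := by
    intro v
    apply Subtype.ext
    rw [hI, hI, hJ2 v v.2]
    rfl
  have hIs : ∀ v w, inner ℝ (I v) w = - inner ℝ v (I w) := by
    intro v w
    rw [Submodule.coe_inner, Submodule.coe_inner, hI, hI]
    exact hJs v v.2 w w.2
  have hRI : ∀ g ∈ G, ∀ v, R g (I v) = I (R g v) := by
    intro g hg v
    apply Subtype.ext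
    rw [hR g hg, hI, hI, hR g hg, hJG g hg v v.2]
  have hRR : ∀ g ∈ G, ∀ v w, inner ℝ (R g v) (R g w) = inner ℝ v w := by
    intro g hg v w
    rw [Submodule.coe_inner, Submodule.coe_inner, hR g hg, hR g hg]
    exact g.inner_map_map _ _
  have hRm : ∀ g ∈ G, ∀ h ∈ G, ∀ v, R (g * h) v = R g (R h v) := by
    intro g hg h hh v
    apply Subtype.ext
    rw [hR _ (G.mul_mem hg hh), hR g hg, hR h hh]
    rfl
  have hR1 : ∀ g ∈ G, ∀ v, R g⁻¹ (R g v) = v := by
    intro g hg v
    apply Subtype.ext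
    rw [hR _ (G.inv_mem hg), hR g hg]
    exact g.symm_apply_apply _
  -- the traces vanish
  have htr : ∀ u ∈ G, u ∉ NV G V → LinearMap.trace ℝ V (R u) = 0 ∧
      LinearMap.trace ℝ V (I * R u) = 0 := by
    intro u hu hun
    have h1 : ∃ h ∈ G, ∃ v ∈ V, u (h v) ≠ h (u v) := by
      by_contra hh
      push Not at hh
      exact hun ⟨hu, hh⟩
    obtain ⟨h, hh, v₀, hv₀, hne⟩ := h1
    have hc : h * u * h⁻¹ * u⁻¹ ∈ NV G V := by
      refine ⟨G.mul_mem (G.mul_mem (G.mul_mem hh hu) (G.inv_mem hh)) (G.inv_mem hu), ?_⟩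
      intro k hk v _
      have := hG2 h hh u hu k hk
      exact LinearIsometryEquiv.congr_fun this v
    obtain ⟨a, b, hab, hcab⟩ := hJN _ hc
    have hne1 : ¬ (a = 1 ∧ b = 0) := by
      rintro ⟨rfl, rfl⟩
      apply hne
      have h2 := hcab (u (h v₀)) (hV.1 u hu _ (hV.1 h hh _ hv₀))
      rw [one_smul, zero_smul, add_zero] at h2
      have h3 : (h * u * h⁻¹ * u⁻¹) (u (h v₀)) = h (u v₀) := by
        show h (u (h.symm (u.symm (u (h v₀))))) = _
        rw [u.symm_apply_apply, h.symm_apply_apply]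
      rw [h3] at h2
      exact h2.symm
    have hconj : R h * (R u * R h⁻¹) = a • R u + b • (I * R u) := by
      ext v
      have h2 := hcab (u v) (hV.1 u hu _ v.2)
      have h3 : (h * u * h⁻¹ * u⁻¹) (u v) = h (u (h⁻¹ v)) := by
        show h (u (h.symm (u.symm (u v)))) = _
        rw [u.symm_apply_apply]
        rfl
      rw [h3] at h2
      simp only [Module.End.mul_apply, LinearMap.add_apply, LinearMap.smul_apply,
        Submodule.coe_add, Submodule.coe_smul]
      rw [hR h hh, hR u hu, hR _ (G.inv_mem hh), hR u hu, hI, hR u hu]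
      rw [h2]
    have htc : LinearMap.trace ℝ V (R h * (R u * R h⁻¹)) = LinearMap.trace ℝ V (R u) := by
      rw [LinearMap.trace_mul_comm]
      congr 1
      ext v
      simp only [Module.End.mul_apply]
      rw [hR1 h hh]
    have htc2 : LinearMap.trace ℝ V (I * (R h * (R u * R h⁻¹))) = LinearMap.trace ℝ V (I * R u) := by
      have e1 : I * (R h * (R u * R h⁻¹)) = R h * ((I * R u) * R h⁻¹) := by
        ext v
        simp only [Module.End.mul_apply]
        rw [hRI h hh]
      rw [e1, LinearMap.trace_mul_comm]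
      congr 1
      ext v
      simp only [Module.End.mul_apply]
      rw [hR1 h hh]
    obtain ⟨t, ht⟩ : ∃ t, t = LinearMap.trace ℝ V (R u) := ⟨_, rfl⟩
    obtain ⟨s, hs⟩ : ∃ s, s = LinearMap.trace ℝ V (I * R u) := ⟨_, rfl⟩
    have hII : I * (I * R u) = - R u := by
      ext v
      simp only [Module.End.mul_apply, LinearMap.neg_apply]
      rw [hI2]
    have q1 : t = a * t + b * s := by
      have := htc
      rw [hconj, map_add, map_smul, map_smul, ← ht, ← hs, smul_eq_mul, smul_eq_mul] at this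
      exact this.symm
    have q2 : s = a * s - b * t := by
      have := htc2
      rw [hconj, mul_add, mul_smul_comm, mul_smul_comm, hII, map_add, map_smul, map_smul, map_neg,
        ← ht, ← hs, smul_eq_mul, smul_eq_mul] at this
      linarith
    rw [← ht, ← hs]
    have hpos : 0 < (1 - a) ^ 2 + b ^ 2 := by
      by_contra hcon
      apply hne1
      have e1 : (1 - a) ^ 2 = 0 := by nlinarith [sq_nonneg (1 - a), sq_nonneg b]
      have e2 : b ^ 2 = 0 := by nlinarith [sq_nonneg (1 - a), sq_nonneg b]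
      have e3 := pow_eq_zero_iff (two_ne_zero) |>.1 e1
      have e4 := pow_eq_zero_iff (two_ne_zero) |>.1 e2
      exact ⟨by linarith, e4⟩
    have q3 : ((1 - a) ^ 2 + b ^ 2) * t = 0 := by
      have w1 : (1 - a) * t = b * s := by linarith
      have w2 : (1 - a) * s = -(b * t) := by linarith
      calc ((1 - a) ^ 2 + b ^ 2) * t = (1 - a) * ((1 - a) * t) + b ^ 2 * t := by ring
        _ = b * ((1 - a) * s) + b ^ 2 * t := by rw [w1]; ring
        _ = 0 := by rw [w2]; ring
    have q4 : ((1 - a) ^ 2 + b ^ 2) * s = 0 := by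
      have w1 : (1 - a) * t = b * s := by linarith
      have w2 : (1 - a) * s = -(b * t) := by linarith
      calc ((1 - a) ^ 2 + b ^ 2) * s = (1 - a) * ((1 - a) * s) + b ^ 2 * s := by ring
        _ = -(b * ((1 - a) * t)) + b ^ 2 * s := by rw [w2]; ring
        _ = 0 := by rw [w1]; ring
    exact ⟨(mul_eq_zero.1 q3).resolve_left hpos.ne', (mul_eq_zero.1 q4).resolve_left hpos.ne'⟩
  have hVnt : Nontrivial V := Submodule.nontrivial_iff_ne_bot.2 hV.2.1
  have hd : 0 < finrank ℝ V := finrank_pos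
  let bb : OrthonormalBasis (Fin (finrank ℝ V)) ℝ V := stdOrthonormalBasis ℝ V
  have hinv : ∀ g ∈ G, ∀ v w : V, inner ℝ (R g v) w = inner ℝ v (R g⁻¹ w) := by
    intro g hg v w
    rw [Submodule.coe_inner, Submodule.coe_inner, hR g hg, hR _ (G.inv_mem hg)]
    exact AG.inner_inv g _ _
  refine bessel S (finrank ℝ V) hd bb I hI2 hIs R (fun s hs => hRR s (hSG s hs))
    (fun s hs => hRI s (hSG s hs)) ?_ ?_
  · intro g hg h hh hgh
    have h1 := (htr (g⁻¹ * h) (G.mul_mem (G.inv_mem (hSG g hg)) (hSG h hh)) (hS g hg h hh hgh)).1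
    rw [LinearMap.trace_eq_sum_inner _ bb] at h1
    rw [← h1]
    refine Finset.sum_congr rfl fun i _ => ?_
    rw [hinv g (hSG g hg), hRm _ (G.inv_mem (hSG g hg)) h (hSG h hh)]
  · intro g hg h hh hgh
    have h1 := (htr (g⁻¹ * h) (G.mul_mem (G.inv_mem (hSG g hg)) (hSG h hh)) (hS g hg h hh hgh)).2
    rw [LinearMap.trace_eq_sum_inner _ bb] at h1
    rw [← h1]
    refine Finset.sum_congr rfl fun i _ => ?_
    rw [hinv g (hSG g hg), hRI _ (G.inv_mem (hSG g hg)), Module.End.mul_apply,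
      hRm _ (G.inv_mem (hSG g hg)) h (hSG h hh)]

end grp

end Pool.Agent.H588.BL
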